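import Pool.Agent.V11216.RayTreeD

namespace Pool.Agent.Results.MP_16b74e_gt.StarlikeRayless

open Pool.Agent.V11216.RayTree Set Filter Topology

/-- Condition (i): there is a totally bounded proper subset `X₀` of `X`, generated by a labeled
ray, such that `X` is the completion of `X₀` (`X` is complete and `X₀` is dense in `X`). -/
def CondI (X : Type*) [MetricSpace X] : Prop :=
  ∃ X₀ : Set X, X₀ ≠ univ ∧ TotallyBounded X₀ ∧
    (∃ (R : SimpleGraph X₀) (l : X₀ → ℝ), IsRay R ∧ Generates R l) ∧
    CompleteSpace X ∧ Dense X₀

/-- Condition (ii): `X` is compact and generated by a labeled starlike rayless tree. -/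
def CondII (X : Type*) [MetricSpace X] : Prop :=
  CompactSpace X ∧ ∃ (T : SimpleGraph X) (l : X → ℝ), Starlike T ∧ Rayless T ∧ Generates T l

/-- For every infinite ultrametric space, (i) and (ii) are equivalent. -/
theorem result (X : Type*) [MetricSpace X] [IsUltrametricDist X] [Infinite X] :
    CondI X ↔ CondII X := by
  constructor
  · rintro ⟨X₀, hproper, htb, ⟨R, l, ⟨x, hx, hR⟩, hG⟩, hcomp, hdense⟩
    have hcpt : CompactSpace X := by
      constructor
      rw [isCompact_iff_totallyBounded_isComplete]
      refine ⟨?_, completeSpace_iff_isComplete_univ.1 hcomp⟩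
      rw [← hdense.closure_eq]
      exact htb.closure
    refine ⟨hcpt, ?_⟩
    set y : ℕ → X := fun n => (x n : X) with hy
    have hyinj : Function.Injective y := fun a b e => hx.1 (Subtype.ext e)
    have hrange : Set.range y = X₀ := by
      ext v
      constructor
      · rintro ⟨n, rfl⟩
        exact (x n).2
      · intro hv
        obtain ⟨n, hn⟩ := hx.2 ⟨v, hv⟩
        exact ⟨n, by simp [hy, hn]⟩
    have hadj : ∀ n, R.Adj (x n) (x (n + 1)) := fun n => (hR _ _).2 ⟨n, Or.inl ⟨rfl, rfl⟩⟩
    have F : RayDist y (fun n => l (x n)) := fun i j hij => ray_dist hG x hx.1 hadj i j hij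
    obtain ⟨c, hc⟩ := ray_limit F
    have hins : insert c X₀ = univ := by
      have h1 : IsClosed (insert c X₀) := by
        rw [← hrange]
        exact hc.isCompact_insert_range.isClosed
      have h2 : closure X₀ ⊆ insert c X₀ := h1.closure_subset_iff.2 (subset_insert _ _)
      rw [hdense.closure_eq] at h2
      exact univ_subset_iff.1 h2
    have hcX₀ : c ∉ X₀ := fun h => hproper (by rw [← hins, insert_eq_of_mem h])
    have hne : ∀ n, y n ≠ c := fun n e => hcX₀ (e ▸ (x n).2)
    have hall : ∀ v, v = c ∨ ∃ n, v = y n := by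
      intro v
      have : v ∈ insert c X₀ := by
        rw [hins]
        trivial
      rcases this with h | h
      · exact Or.inl h
      · rw [← hrange] at h
        obtain ⟨n, hn⟩ := h
        exact Or.inr ⟨n, hn.symm⟩
    exact exists_tree_of_ray hyinj hne hall (fun n => hG.2.1 _) F hc
  · rintro ⟨hcpt, T, l, hstar, hray, hG⟩
    obtain ⟨c, hdense, R, l', hR, hG'⟩ := ray_of_tree hG hstar hray
    refine ⟨{v | v ≠ c}, ?_, ?_, ⟨R, l', hR, hG'⟩, inferInstance, hdense⟩
    · intro h
      have : c ∈ {v : X | v ≠ c} := by
        rw [h]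
        trivial
      exact this rfl
    · exact (isCompact_univ.totallyBounded).subset (subset_univ _)

end Pool.Agent.Results.MP_16b74e_gt.StarlikeRayless
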